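import Pool.Agent.Helper84.BT.Goals

/-!
# Project BT (MP_57df85_nt): packet DNZ
-/

set_option autoImplicit false

namespace Pool.Agent.Helper78.BT.DNZ

open Pool.Agent.Helper84.BT
open Polynomial

theorem der_fac (μ : ℕ) (P0 : ℤ[X]) :
    (X - C 1) * ((X - C 1) ^ μ * P0).derivative =
      (X - C 1) ^ μ * (C (μ : ℤ) * P0 + (X - C 1) * P0.derivative) := by
  rw [derivative_mul, derivative_X_sub_C_pow]
  cases μ with
  | zero =>
    simp
  | succ μ =>
    rw [Nat.add_sub_cancel, pow_succ]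
    ring

theorem eval_ne {P0 : ℤ[X]} (h : ¬ (X - C 1 ∣ P0)) : P0.eval 1 ≠ 0 := fun h0 =>
  h (dvd_iff_isRoot.mpr h0)

/-- **DNZ** -/
theorem t : S_DNZ := by
  intro p P Q hp hP hQ
  obtain ⟨P0, hP0, hP1⟩ := exists_eq_pow_rootMultiplicity_mul_and_not_dvd P hP 1
  obtain ⟨Q0, hQ0, hQ1⟩ := exists_eq_pow_rootMultiplicity_mul_and_not_dvd Q hQ 1
  generalize rootMultiplicity 1 P = μ at hP0
  generalize rootMultiplicity 1 Q = ν at hQ0
  have hD : Dl p P Q = (X - C 1) ^ (μ + ν) * (C (p - 1) * P0 * Q0 + 2 * (C p - X) *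
      ((C (μ : ℤ) * P0 + (X - C 1) * P0.derivative) * Q0 -
        P0 * (C (ν : ℤ) * Q0 + (X - C 1) * Q0.derivative))) := by
    have e1 := der_fac μ P0
    have e2 := der_fac ν Q0
    rw [← hP0] at e1
    rw [← hQ0] at e2
    have e3 : Dl p P Q = C (p - 1) * P * Q + 2 * (C p - X) *
        (((X - C 1) * P.derivative) * Q - P * ((X - C 1) * Q.derivative)) := by
      unfold Dl
      rw [C_1]
      ring
    rw [e3, e1, e2]
    conv_lhs => rw [hP0, hQ0]
    rw [pow_add]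
    ring
  rw [hD]
  apply mul_ne_zero (pow_ne_zero _ (X_sub_C_ne_zero 1))
  intro h0
  have e4 := congrArg (eval 1) h0
  simp only [eval_add, eval_mul, eval_sub, eval_C, eval_X, eval_ofNat, eval_zero, sub_self,
    zero_mul, add_zero] at e4
  have e5 : (p - 1) * P0.eval 1 * Q0.eval 1 * (1 + 2 * ((μ : ℤ) - ν)) = 0 := by
    linear_combination e4
  have n1 : (p - 1) * P0.eval 1 * Q0.eval 1 ≠ 0 :=
    mul_ne_zero (mul_ne_zero (by omega) (eval_ne hP1)) (eval_ne hQ1)
  rcases mul_eq_zero.mp e5 with h | h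
  · exact n1 h
  · omega

end Pool.Agent.Helper78.BT.DNZ
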