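import Pool.Agent.Helper84.BT.Goals

/-!
# Project BT (MP_57df85_nt): packet EQN
-/

set_option autoImplicit false

namespace Pool.Agent.Helper78.BT.EQN

open Finset
open Pool.Agent.Helper84.BT
open Pool.Agent.Helper7.BM (sg)

theorem sg_mul (x m : ℕ) : ((x : ℤ) - 1) * (sg x m : ℤ) = (x : ℤ) ^ (m + 1) - 1 := by
  have := geom_sum_mul (x : ℤ) (m + 1)
  unfold sg
  push_cast
  rw [← this]
  ring

theorem sg_mono_left {x y : ℕ} (h : x ≤ y) (m : ℕ) : sg x m ≤ sg y m := by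
  unfold sg
  exact Finset.sum_le_sum (fun i _ => Nat.pow_le_pow_left h i)

theorem sg_mono_right (x : ℕ) {m n : ℕ} (h : m ≤ n) : sg x m ≤ sg x n := by
  unfold sg
  exact Finset.sum_le_sum_of_subset (Finset.range_mono (by omega))

theorem sg_lt {x y : ℕ} (h : x < y) {m : ℕ} (hm : 1 ≤ m) : sg x m < sg y m := by
  unfold sg
  refine Finset.sum_lt_sum (fun i _ => Nat.pow_le_pow_left h.le i) ⟨1, ?_, ?_⟩
  · rw [Finset.mem_range]
    omega
  · rw [pow_one, pow_one]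
    exact h

/-- **EQN** -/
theorem t : S_EQN := by
  intro p q s t hp hpq hq hs ht h
  have hsg : (sg p (2 * s) : ℤ) = (sg q (2 * t) : ℤ) := by exact_mod_cast h
  have e1 := sg_mul p (2 * s)
  have e2 := sg_mul q (2 * t)
  have hA : ((q : ℤ) - 1) * p * ((p : ℤ) ^ s) ^ 2 =
      ((p : ℤ) - 1) * (q : ℤ) ^ (2 * t + 1) + ((q : ℤ) - p) := by
    have e3 : ((q : ℤ) - 1) * ((p : ℤ) ^ (2 * s + 1) - 1) =
        ((p : ℤ) - 1) * ((q : ℤ) ^ (2 * t + 1) - 1) := by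
      rw [← e1, ← e2, hsg]
      ring
    have e4 : (p : ℤ) ^ (2 * s + 1) = p * ((p : ℤ) ^ s) ^ 2 := by ring
    rw [e4] at e3
    linear_combination e3
  have hpz : (2 : ℤ) ≤ p := by exact_mod_cast hp
  have hqz : (p : ℤ) + 1 ≤ q := by exact_mod_cast hpq
  refine ⟨hA, ?_, ?_, ?_⟩
  · by_contra hcon
    have hle : (q : ℤ) ^ t ≤ (p : ℤ) ^ s := by
      have : q ^ t ≤ p ^ s := by omega
      exact_mod_cast this
    have hq1 : (1 : ℤ) < (q : ℤ) ^ t := by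
      have : 1 < q ^ t := Nat.one_lt_pow (by omega) (by omega)
      exact_mod_cast this
    have e5 : (q : ℤ) ^ (2 * t + 1) = q * ((q : ℤ) ^ t) ^ 2 := by ring
    rw [e5] at hA
    have e6 : ((q : ℤ) ^ t) ^ 2 ≤ ((p : ℤ) ^ s) ^ 2 := pow_le_pow_left₀ (by positivity) hle 2
    have e7 : (0 : ℤ) < ((q : ℤ) - 1) * p := mul_pos (by linarith) (by linarith)
    have e8 : ((q : ℤ) - 1) * p * ((q : ℤ) ^ t) ^ 2 ≤ ((q : ℤ) - 1) * p * ((p : ℤ) ^ s) ^ 2 :=
      mul_le_mul_of_nonneg_left e6 e7.le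
    have e9 : (0 : ℤ) < ((q : ℤ) - p) * (((q : ℤ) ^ t) ^ 2 - 1) := by
      apply mul_pos (by linarith)
      nlinarith
    nlinarith
  · by_contra hcon
    have h1 : sg p (2 * s) ≤ sg p (2 * t) := sg_mono_right p (by omega)
    have h2 : sg p (2 * t) < sg q (2 * t) := sg_lt hpq (by omega)
    omega
  · have hd : (q : ℤ) ∣ (p : ℤ) * (((p : ℤ) ^ s - 1) * ((p : ℤ) ^ s + 1)) := by
      refine ⟨p * ((p : ℤ) ^ s) ^ 2 - ((p : ℤ) - 1) * (q : ℤ) ^ (2 * t) - 1, ?_⟩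
      have e5 : (q : ℤ) ^ (2 * t + 1) = q * (q : ℤ) ^ (2 * t) := by ring
      rw [e5] at hA
      linear_combination -hA
    rcases Int.Prime.dvd_mul' hq hd with h1 | h1
    · exfalso
      have := Int.le_of_dvd (by linarith) h1
      linarith
    · rcases Int.Prime.dvd_mul' hq h1 with h2 | h2
      · exact ⟨1, Or.inl rfl, by rwa [one_mul]⟩
      · refine ⟨-1, Or.inr rfl, ?_⟩
        have : (-1 : ℤ) * (p : ℤ) ^ s - 1 = -((p : ℤ) ^ s + 1) := by ring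
        rw [this]
        exact (dvd_neg).mpr h2

end Pool.Agent.Helper78.BT.EQN
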