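import Pool.Agent.Helper84.BT.Goals

/-!
# Project BT (MP_57df85_nt): packet POS
-/

set_option autoImplicit false

namespace Pool.Agent.Helper78.BT.POS

open Pool.Agent.Helper84.BT

theorem la_inv (a : ℤ) : la (-a) * PowerSeries.mk (fun n => (4 * a) ^ n) = 1 := by
  unfold la
  rw [add_mul, one_mul, mul_assoc]
  ext n
  rw [map_add, PowerSeries.coeff_C_mul]
  cases n with
  | zero =>
    rw [PowerSeries.coeff_mk, PowerSeries.coeff_zero_X_mul, PowerSeries.coeff_one, if_pos rfl]
    simp
  | succ n =>
    rw [PowerSeries.coeff_mk, PowerSeries.coeff_succ_X_mul, PowerSeries.coeff_mk,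
      PowerSeries.coeff_one, if_neg (Nat.succ_ne_zero n)]
    ring

/-- **POS** -/
theorem t : S_POS := by
  intro hS p hp
  obtain ⟨h1, _, h3, _⟩ := hS (-1) (-p)
  generalize Sr (-1) (-p) = g at h1 h3
  let I : PowerSeries ℤ := PowerSeries.mk (fun n => (4 * 1) ^ n) *
    PowerSeries.mk (fun n => (4 * p) ^ n)
  have hI : la (-1) * la (-p) * I = 1 := by
    show la (-1) * la (-p) * (PowerSeries.mk (fun n => (4 * 1) ^ n) *
      PowerSeries.mk (fun n => (4 * p) ^ n)) = 1
    rw [mul_mul_mul_comm, la_inv 1, la_inv p, one_mul]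
  have hIpos : ∀ n, 0 < PowerSeries.coeff n I := by
    intro n
    show 0 < PowerSeries.coeff n (PowerSeries.mk (fun n => ((4 * 1 : ℤ)) ^ n) *
      PowerSeries.mk (fun n => (4 * p) ^ n))
    rw [PowerSeries.coeff_mul]
    apply Finset.sum_pos
    · intro x _
      rw [PowerSeries.coeff_mk, PowerSeries.coeff_mk]
      positivity
    · exact ⟨(0, n), by simp⟩
  have hg : PowerSeries.derivative ℤ g = PowerSeries.C (2 * (-1 - -p)) * (I * g) := by
    have : I * (la (-1) * la (-p) * PowerSeries.derivative ℤ g) =
        I * (PowerSeries.C (2 * (-1 - -p)) * g) := by rw [h3]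
    have e1 : I * (la (-1) * la (-p) * PowerSeries.derivative ℤ g) =
        (la (-1) * la (-p) * I) * PowerSeries.derivative ℤ g := by ring
    rw [e1, hI, one_mul] at this
    rw [this]
    ring
  intro n
  induction n using Nat.strong_induction_on with
  | _ n ih =>
    cases n with
    | zero =>
      rw [PowerSeries.coeff_zero_eq_constantCoeff_apply, h1]
      exact one_pos
    | succ n =>
      have e2 := PowerSeries.coeff_derivative g n
      rw [hg, PowerSeries.coeff_C_mul, PowerSeries.coeff_mul] at e2
      have hpos : 0 < ∑ x ∈ Finset.HasAntidiagonal.antidiagonal n, PowerSeries.coeff x.1 I *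
          PowerSeries.coeff x.2 g := by
        apply Finset.sum_pos
        · intro x hx
          have hx2 : x.2 < n + 1 := by
            have := Finset.HasAntidiagonal.mem_antidiagonal.mp hx
            omega
          exact mul_pos (hIpos x.1) (ih x.2 hx2)
        · exact ⟨(0, n), by simp⟩
      have e3 : 0 < PowerSeries.coeff (n + 1) g * ((n : ℤ) + 1) := by
        rw [← e2]
        exact mul_pos (by linarith) hpos
      exact pos_of_mul_pos_left e3 (by positivity)

end Pool.Agent.Helper78.BT.POS
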