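import Pool.Agent.Helper61.BT.Goals
import Pool.Agent.Helper69.VF.ACT

set_option autoImplicit false

namespace Pool.Agent.Helper78.BT

open Pool.Agent.Helper38.VF Pool.Agent.Helper61.BT Pool.Agent.Helper69.VTF

universe u

variable {A : Type u} [Group A] [DistribMulAction A (L2 A)]

theorem smul_smul' (hact : LeftAct A) (y : A) (c : ℝ) (v : L2 A) : y • (c • v) = c • (y • v) := by
  ext a
  rw [hact, lp.coeFn_smul, lp.coeFn_smul, Pi.smul_apply, Pi.smul_apply, hact]

theorem uv_add (o : Option A) (v w : L2 A) : Uv o (v + w) = Uv o v + Uv o w := by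
  cases o with
  | none => rfl
  | some y =>
    change (v + w) - y • (v + w) = (v - y • v) + (w - y • w)
    rw [smul_add]; abel

theorem uv_smul (hact : LeftAct A) (o : Option A) (c : ℝ) (v : L2 A) :
    Uv o (c • v) = c • Uv o v := by
  cases o with
  | none => rfl
  | some y =>
    change c • v - y • (c • v) = c • (v - y • v)
    rw [smul_smul' hact, smul_sub]

/-- the subspace of the values -/
noncomputable def S0 (hact : LeftAct A) (E : Subgroup A) (o : Option A) : Submodule ℝ (L2 A) where
  carrier := {z : L2 A | ∃ v : L2 A, (∀ e ∈ E, e • v = v) ∧ z = Uv o v}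
  add_mem' := by
    rintro _ _ ⟨v, hv, rfl⟩ ⟨w, hw, rfl⟩
    exact ⟨v + w, fun e he => by rw [smul_add, hv e he, hw e he], (uv_add o v w).symm⟩
  zero_mem' := ⟨0, fun e _ => smul_zero e, by cases o with
    | none => rfl
    | some y =>
      change (0 : L2 A) = 0 - y • (0 : L2 A)
      rw [smul_zero, sub_zero]⟩
  smul_mem' := by
    rintro c _ ⟨v, hv, rfl⟩
    exact ⟨c • v, fun e he => by rw [smul_smul' hact, hv e he], (uv_smul hact o c v).symm⟩

/-- right translation -/
noncomputable abbrev Rt (h : A) : L2 A ≃ₗᵢ[ℝ] L2 A := rei (Equiv.mulRight h)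

omit [DistribMulAction A (L2 A)] in
theorem rt_apply (h : A) (f : L2 A) (a : A) : Rt h f a = f (a * h) := rfl

theorem rt_smul (hact : LeftAct A) (h y : A) (f : L2 A) : Rt h (y • f) = y • Rt h f := by
  ext a
  rw [rt_apply, hact, hact, rt_apply, mul_assoc]

theorem rt_uv (hact : LeftAct A) (h : A) (o : Option A) (v : L2 A) :
    Rt h (Uv o v) = Uv o (Rt h v) := by
  cases o with
  | none => rfl
  | some y =>
    change Rt h (v - y • v) = Rt h v - y • Rt h v
    rw [map_sub, rt_smul hact]

theorem rt_S0 (hact : LeftAct A) (E : Subgroup A) (o : Option A) (h : A) (z : L2 A)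
    (hz : z ∈ S0 hact E o) : Rt h z ∈ S0 hact E o := by
  obtain ⟨v, hv, rfl⟩ := hz
  refine ⟨Rt h v, fun e he => ?_, rt_uv hact h o v⟩
  rw [← rt_smul hact, hv e he]

theorem rt_V (hact : LeftAct A) (E : Subgroup A) (o : Option A) (h : A) (z : L2 A)
    (hz : z ∈ (S0 hact E o).topologicalClosure) : Rt h z ∈ (S0 hact E o).topologicalClosure := by
  have h1 : z ∈ closure (S0 hact E o : Set (L2 A)) := hz
  have h2 : Rt h z ∈ closure (S0 hact E o : Set (L2 A)) :=
    map_mem_closure (Rt h).continuous h1 (fun x hx => rt_S0 hact E o h x hx)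
  exact h2

omit [DistribMulAction A (L2 A)] in
theorem norm_ind (F : Finset A) (f : L2 A) (hf : ∀ a, f a = (open Classical in if a ∈ F then 1 else 0)) :
    inner ℝ f f = (F.card : ℝ) := by
  classical
  rw [lp.inner_eq_tsum, tsum_eq_sum (s := F)]
  · rw [Finset.sum_congr rfl (g := fun _ => (1 : ℝ))]
    · simp
    · intro a ha
      rw [hf a]
      simp [ha]
  · intro a ha
    rw [hf a]
    simp [ha]

theorem prj : PrjStmt.{u} := by
  classical
  intro A _ _ hact E N o hfin hcard ho
  set V : Submodule ℝ (L2 A) := (S0 hact E o).topologicalClosure with hV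
  haveI : CompleteSpace V := (Submodule.isClosed_topologicalClosure _).completeSpace_coe
  have hidem : ∀ f, V.starProjection (V.starProjection f) = V.starProjection f := fun f =>
    Submodule.starProjection_eq_self_iff.2 (Submodule.starProjection_apply_mem V f)
  have hsa : ∀ f g : L2 A, inner ℝ (V.starProjection f) g = inner ℝ f (V.starProjection g) :=
    fun f g => Submodule.inner_starProjection_left_eq_right V f g
  refine ⟨V.starProjection, hsa, hidem, fun f => Submodule.starProjection_apply_mem V f, ?_, ?_⟩
  · intro h f f' hff a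
    have e1 : f' = Rt h f := by
      ext a; rw [hff, rt_apply]
    have e2 : V.starProjection f' = Rt h (V.starProjection f) := by
      symm
      rw [e1]
      refine (Submodule.eq_starProjection_of_mem_of_inner_eq_zero
        (rt_V hact E o h _ (Submodule.starProjection_apply_mem V f)) ?_).symm
      intro w hw
      rw [← map_sub]
      have e3 : w = Rt h (Rt h⁻¹ w) := by
        ext a; rw [rt_apply, rt_apply, mul_inv_cancel_right]
      rw [e3, LinearIsometryEquiv.inner_map_map]
      exact Submodule.starProjection_inner_eq_zero f _ (rt_V hact E o h⁻¹ w hw)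
    rw [e2, rt_apply]
  · intro δ₁ hδ
    have hδ' : δ₁ = lp.single 2 (1 : A) (1 : ℝ) := by
      ext a
      rw [hδ, lp.single_apply, Pi.single_apply]
    -- the indicator of `E`
    set F : Finset A := hfin.toFinset with hF
    have hFmem : ∀ a, a ∈ F ↔ a ∈ E := by
      intro a; rw [hF, Set.Finite.mem_toFinset]; rfl
    have hFcard : F.card = Nat.card E := by
      rw [hF, ← Nat.card_eq_card_finite_toFinset hfin]
      rfl
    let v : L2 A := ∑ a ∈ F, lp.single 2 a (1 : ℝ)
    have hv : ∀ a, v a = if a ∈ F then 1 else 0 := by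
      intro a
      change (∑ b ∈ F, (lp.single 2 b (1 : ℝ) : L2 A)) a = _
      rw [lp.coeFn_sum, Finset.sum_apply]
      simp [lp.single_apply, Pi.single_apply]
    have hvinv : ∀ e ∈ E, e • v = v := by
      intro e he
      ext a
      rw [hact, hv, hv]
      have : e⁻¹ * a ∈ F ↔ a ∈ F := by
        rw [hFmem, hFmem]
        exact E.mul_mem_cancel_left (E.inv_mem he)
      simp only [this]
    set z : L2 A := Uv o v with hz
    have hzV : z ∈ V := Submodule.le_topologicalClosure _ ⟨v, hvinv, rfl⟩
    have hz1 : z 1 = 1 := by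
      rw [hz]
      rcases o with _ | y
      · change v 1 = 1
        rw [hv]
        simp [hFmem, E.one_mem]
      · change (v - y • v) 1 = 1
        rw [lp.coeFn_sub, Pi.sub_apply, hact, hv, hv]
        have h1 : y⁻¹ * 1 ∉ F := by
          rw [hFmem, mul_one, E.inv_mem_iff]
          exact ho y rfl
        simp [hFmem, E.one_mem, ho y rfl]
    have hvv : inner ℝ v v = (F.card : ℝ) := norm_ind F v hv
    have hzz : inner ℝ z z ≤ 2 * (F.card : ℝ) := by
      rw [hz]
      rcases o with _ | y
      · change inner ℝ v v ≤ _
        rw [hvv]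
        have : (0:ℝ) ≤ F.card := by positivity
        linarith
      · change inner ℝ (v - y • v) (v - y • v) ≤ _
        have hyy : inner ℝ (y • v) (y • v) = (F.card : ℝ) := by
          have := norm_ind (F.map (Equiv.mulLeft y).toEmbedding) (y • v) (by
            intro a
            rw [hact, hv]
            have : y⁻¹ * a ∈ F ↔ a ∈ F.map (Equiv.mulLeft y).toEmbedding := by
              rw [Finset.mem_map_equiv]
              rfl
            simp only [this])
          rw [this, Finset.card_map]
        have hvy : 0 ≤ inner ℝ v (y • v) := by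
          rw [lp.inner_eq_tsum]
          refine tsum_nonneg fun a => ?_
          rw [hact, hv, hv]
          simp only [RCLike.inner_apply, conj_trivial]
          positivity
        have hcm : inner ℝ (y • v) v = inner ℝ v (y • v) := real_inner_comm _ _
        rw [inner_sub_left, inner_sub_right, inner_sub_right, hvv, hyy, hcm]
        linarith
    have hNpos : (0 : ℝ) < N := by
      have : 0 < Nat.card E := by
        haveI : Finite E := hfin
        exact Nat.card_pos
      exact_mod_cast lt_of_lt_of_le this hcard
    have hp1 : (V.starProjection δ₁) 1 = inner ℝ (V.starProjection δ₁) (V.starProjection δ₁) := by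
      rw [← hsa, hidem, hδ', real_inner_comm, lp.inner_single_left]
      simp
    have h1 : (1 : ℝ) = inner ℝ z (V.starProjection δ₁) := by
      rw [← hsa, Submodule.starProjection_eq_self_iff.2 hzV, hδ', lp.inner_single_right, hz1]
      simp
    have hcs : inner ℝ z (V.starProjection δ₁) * inner ℝ z (V.starProjection δ₁) ≤
        inner ℝ z z * inner ℝ (V.starProjection δ₁) (V.starProjection δ₁) :=
      real_inner_mul_inner_self_le _ _
    rw [← h1, ← hp1] at hcs
    have hFN : (F.card : ℝ) ≤ N := by rw [hFcard]; exact_mod_cast hcard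
    have hnn : 0 ≤ (V.starProjection δ₁) 1 := by rw [hp1]; exact real_inner_self_nonneg
    rw [div_le_iff₀ (by positivity)]
    nlinarith

end Pool.Agent.Helper78.BT
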