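import Pool.Agent.Helper61.BT.Goals

set_option autoImplicit false

namespace Pool.Agent.Helper78.BT

universe u

theorem trg : Pool.Agent.Helper61.BT.TrgStmt.{u} := by
  intro M _ _ k D π hπ htri w hw η hη
  have key : ∀ m : ℕ, m ≤ k → ∃ d ∈ D, ∀ i : Fin k, k - m ≤ i.val → ‖π i (d i) - w i‖ < η := by
    intro m
    induction m with
    | zero =>
      intro _
      refine ⟨0, D.zero_mem, fun i hi => ?_⟩
      exfalso
      have := i.isLt
      omega
    | succ m ih =>
      intro hm
      obtain ⟨d, hd, hdw⟩ := ih (by omega)
      have hlt : k - (m + 1) < k := by omega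
      set l : Fin k := ⟨k - (m + 1), hlt⟩ with hl
      set w' : M := w l - π l (d l) with hw'
      have hw'' : π l w' = w' := by
        rw [hw', map_sub, hπ, hw]
      have hpos : (0 : ℝ) < ‖π l‖ + 1 := by positivity
      obtain ⟨d', hd', hd'w, hd'0⟩ := htri l w' hw'' (η / (‖π l‖ + 1)) (by positivity)
      refine ⟨d + d', D.add_mem hd hd', fun i hi => ?_⟩
      rcases eq_or_ne i l with hil | hne
      · rw [hil]
        have e1 : π l ((d + d') l) - w l = π l (d' l - w') := by
          rw [map_sub, hw'', Pi.add_apply, map_add, hw']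
          abel
        rw [e1]
        calc ‖π l (d' l - w')‖ ≤ ‖π l‖ * ‖d' l - w'‖ := (π l).le_opNorm _
          _ ≤ ‖π l‖ * (η / (‖π l‖ + 1)) := by gcongr
          _ < (‖π l‖ + 1) * (η / (‖π l‖ + 1)) := by
            have : (0:ℝ) < η / (‖π l‖ + 1) := by positivity
            nlinarith
          _ = η := by field_simp
      · have hli : l < i := by
          rw [Fin.lt_def]
          have h1 : i.val ≠ l.val := fun h => hne (Fin.ext h)
          have h2 : l.val = k - (m + 1) := rfl
          omega
        have h2 : k - m ≤ i.val := by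
          have h3 : l.val < i.val := hli
          have h2 : l.val = k - (m + 1) := rfl
          omega
        rw [Pi.add_apply, hd'0 i hli, add_zero]
        exact hdw i h2
  obtain ⟨d, hd, hdw⟩ := key k le_rfl
  exact ⟨d, hd, fun i => hdw i (by omega)⟩

end Pool.Agent.Helper78.BT
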